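import Pool.Agent.H626R3.CT.Stmts

/-!
# H626-CT, TAmp (helper853, second prover): the twisted amplification

The first lemmas are taken from the file T_TUni38.lean of helper38.
-/

set_option autoImplicit false

open scoped Classical symmDiff

namespace Pool.Agent.H853R3.CT.Amp

open Pool.Agent.H626R3.CT

theorem inner_dl {Y : Type} (y : Y) (f : L2 Y) : inner ℂ (dl y) f = f y := by
  unfold dl
  rw [lp.inner_single_left]
  simp

theorem dl_apply {Y : Type} (y y' : Y) : (dl y : L2 Y) y' = if y' = y then 1 else 0 := by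
  unfold dl
  rw [lp.single_apply]
  by_cases h : y' = y
  · subst h; simp
  · simp [h]

theorem cf_change (w : ℕ → ℂ) (L L' : ℕ) (hL : ∀ l, L ≤ l → w l = 1) (hL' : ∀ l, L' ≤ l → w l = 1)
    (S : Finset ℕ) (hS : S ⊆ Finset.range L) :
    cf w L S = if S ⊆ Finset.range L' then cf w L' S else 0 := by
  by_cases h : S ⊆ Finset.range L'
  · rw [if_pos h]
    have key : ∀ M N : ℕ, M ≤ N → (∀ l, M ≤ l → w l = 1) → S ⊆ Finset.range M →
        cf w M S = cf w N S := by
      intro M N hMN hM hSM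
      unfold cf
      apply Finset.prod_subset
      · intro l hl
        rw [Finset.mem_range] at hl ⊢
        omega
      · intro l _ hl
        rw [Finset.mem_range, not_lt] at hl
        have : l ∉ S := fun hlS => by
          have := hSM hlS
          rw [Finset.mem_range] at this
          omega
        rw [if_neg this, hM l hl]
        norm_num
    rw [key L (max L L') (le_max_left _ _) hL hS, key L' (max L L') (le_max_right _ _) hL' h]
  · rw [if_neg h]
    obtain ⟨l, hl1, hl2⟩ := Finset.not_subset.mp h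
    rw [Finset.mem_range, not_lt] at hl2
    unfold cf
    apply Finset.prod_eq_zero (hS hl1)
    rw [if_pos hl1, hL' l hl2]
    norm_num

/-- the image of the basis vector -/
noncomputable def xi {X : Type} (u : ℕ → X → ℂ) (L : ℕ) (y : X × Finset ℕ) :
    L2 (X × Finset ℕ) :=
  ∑ S ∈ (Finset.range L).powerset, cf (fun l => u l y.1) L S • dl (y.1, y.2 ∆ S)

theorem xi_apply {X : Type} (u : ℕ → X → ℂ) (L : ℕ) (y y' : X × Finset ℕ) :
    (xi u L y : L2 (X × Finset ℕ)) y' = if y'.1 = y.1 ∧ y'.2 ∆ y.2 ⊆ Finset.range L then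
      cf (fun l => u l y.1) L (y'.2 ∆ y.2) else 0 := by
  unfold xi
  rw [lp.coeFn_sum, Finset.sum_apply]
  have h1 : ∀ S ∈ (Finset.range L).powerset,
      ((cf (fun l => u l y.1) L S • dl (y.1, y.2 ∆ S) : L2 (X × Finset ℕ)) y') =
      if S = y'.2 ∆ y.2 then (if y'.1 = y.1 then cf (fun l => u l y.1) L S else 0) else 0 := by
    intro S _
    rw [lp.coeFn_smul, Pi.smul_apply, dl_apply]
    by_cases hS : S = y'.2 ∆ y.2
    · by_cases hx : y'.1 = y.1
      · have : y' = (y.1, y.2 ∆ S) := by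
          refine Prod.ext hx ?_
          show y'.2 = y.2 ∆ S
          rw [hS, symmDiff_comm y'.2 y.2, symmDiff_symmDiff_cancel_left]
        rw [if_pos this, if_pos hS, if_pos hx]
        simp
      · have : ¬ y' = (y.1, y.2 ∆ S) := by
          intro h
          have h7 := congrArg Prod.fst h
          exact hx h7
        rw [if_neg this, if_pos hS, if_neg hx]
        simp
    · have : ¬ y' = (y.1, y.2 ∆ S) := by
        intro h
        apply hS
        have h2 : y'.2 = y.2 ∆ S := congrArg Prod.snd h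
        rw [h2, symmDiff_comm (y.2 ∆ S) y.2, symmDiff_symmDiff_cancel_left]
      rw [if_neg this, if_neg hS]
      simp
  rw [Finset.sum_congr rfl h1, Finset.sum_ite_eq']
  by_cases hx : y'.1 = y.1
  · by_cases hs : y'.2 ∆ y.2 ⊆ Finset.range L
    · rw [if_pos (Finset.mem_powerset.mpr hs), if_pos hx, if_pos ⟨hx, hs⟩]
    · rw [if_neg (fun h => hs (Finset.mem_powerset.mp h)), if_neg (fun h => hs h.2)]
  · simp [hx]

theorem Z_dl {X : Type} (u : ℕ → X → ℂ) (Z : Op (X × Finset ℕ))
    (hZ : ∀ (x' x : X) (F' F : Finset ℕ) (L : ℕ), (∀ l, L ≤ l → u l x = 1) →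
        F' ∆ F ⊆ Finset.range L →
        ent Z (x', F') (x, F) = if x' = x then cf (fun l => u l x) L (F' ∆ F) else 0)
    (y : X × Finset ℕ) (L : ℕ) (hL : ∀ l, L ≤ l → u l y.1 = 1) :
    Z (dl y) = xi u L y := by
  apply lp.ext
  funext y'
  rw [xi_apply]
  obtain ⟨x', F'⟩ := y'
  obtain ⟨x, F⟩ := y
  have h1 : (Z (dl (x, F)) : L2 (X × Finset ℕ)) (x', F') = ent Z (x', F') (x, F) := by
    unfold ent
    rw [inner_dl]
  rw [h1]
  obtain ⟨L', hL'1, hL'2⟩ : ∃ L', L ≤ L' ∧ F' ∆ F ⊆ Finset.range L' := by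
    refine ⟨max L ((F' ∆ F).sup id + 1), le_max_left _ _, fun l hl => ?_⟩
    rw [Finset.mem_range]
    have h2 : l ≤ (F' ∆ F).sup id := Finset.le_sup (f := id) hl
    exact lt_of_lt_of_le (Nat.lt_succ_of_le h2) (le_max_right _ _)
  have hL2 : ∀ l, L ≤ l → u l x = 1 := hL
  rw [hZ x' x F' F L' (fun l hl => hL2 l (hL'1.trans hl)) hL'2]
  rw [cf_change (fun l => u l x) L' L (fun l hl => hL2 l (hL'1.trans hl)) hL2 (F' ∆ F) hL'2]
  by_cases hx : x' = x
  · subst hx
    simp
  · simp [hx]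

/-- reindexing of the basis -/
theorem reind {X Y : Type} (e : Y ≃ X) : ∃ R : L2 X ≃ₗᵢ[ℂ] L2 Y, ∀ x, R (dl x) = dl (e.symm x) := by
  have horth : Orthonormal ℂ (fun x : X => (dl (e.symm x) : L2 Y)) := by
    rw [orthonormal_iff_ite]
    intro x x'
    rw [inner_dl, dl_apply]
    by_cases h : x = x'
    · subst h
      simp
    · rw [if_neg h, if_neg (fun h' => h (e.symm.injective h'))]
  have hbot : (Submodule.span ℂ (Set.range (fun x : X => (dl (e.symm x) : L2 Y))))ᗮ = ⊥ := by
    rw [Submodule.eq_bot_iff]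
    intro f hf
    apply lp.ext
    funext y
    have h1 := (Submodule.mem_orthogonal _ _).mp hf (dl y)
      (Submodule.subset_span ⟨e y, by simp⟩)
    rw [inner_dl] at h1
    rw [h1]
    rfl
  obtain ⟨H, hH⟩ : ∃ H : HilbertBasis X ℂ (L2 Y), ⇑H = fun x : X => (dl (e.symm x) : L2 Y) :=
    ⟨HilbertBasis.mkOfOrthogonalEqBot horth hbot, HilbertBasis.coe_mkOfOrthogonalEqBot _ _⟩
  refine ⟨H.repr.symm, fun x => ?_⟩
  have h9 : H.repr.symm (dl x) = H x := by
    exact @HilbertBasis.repr_symm_single _ _ _ _ _ _ (fun a b => Classical.propDecidable _) H x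
  rw [h9, hH]

theorem symm_alg (F F' S S' : Finset ℕ) : F' ∆ S' = F ∆ S ↔ S = S' ∆ (F' ∆ F) := by
  have h1 : F ∆ (F' ∆ S') = S' ∆ (F' ∆ F) := by
    rw [symmDiff_comm F, symmDiff_assoc, symmDiff_comm F', symmDiff_assoc, symmDiff_comm F F']
  constructor
  · intro h
    rw [← h1, h, symmDiff_symmDiff_cancel_left]
  · intro h
    rw [h, ← h1, symmDiff_symmDiff_cancel_left]

theorem ok : TAmp := by
  intro hA0 hconv hUni X Y e u hu hL
  obtain ⟨A, hAc, hAi, hAe⟩ := hA0 X (Finset ℕ)
  obtain ⟨Z, hZ1, hZ2, hZ⟩ := hUni hconv X u hu hL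
  obtain ⟨R, hR⟩ := reind e
  let U : unitary (Op (X × Finset ℕ)) := ⟨Z, Unitary.mem_iff.mpr ⟨hZ1, hZ2⟩⟩
  let W : L2 (X × Finset ℕ) ≃ₗᵢ[ℂ] L2 (X × Finset ℕ) := Unitary.linearIsometryEquiv U
  have hW : ∀ f, W f = Z f := fun f => rfl
  let V : L2 (X × Finset ℕ) ≃ₗᵢ[ℂ] L2 Y := W.symm.trans R
  have hV : ∀ p, V (Z (dl p)) = dl (e.symm p) := by
    intro p
    change R (W.symm (Z (dl p))) = _
    rw [← hW, LinearIsometryEquiv.symm_apply_apply, hR]
  have hVs : ∀ p, V.symm (dl (e.symm p)) = Z (dl p) := by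
    intro p
    rw [← hV p, LinearIsometryEquiv.symm_apply_apply]
  let CE := V.conjStarAlgEquiv
  have hCE : ∀ (B : Op (X × Finset ℕ)) (g : L2 Y), CE B g = V (B (V.symm g)) := fun B g => rfl
  refine ⟨(CE : Op (X × Finset ℕ) →⋆ₙₐ[ℂ] Op Y).comp A, ?_, ?_, ?_⟩
  · have h1 : Continuous (fun B : Op (X × Finset ℕ) => CE B) := by
      have h2 : Continuous (fun B : Op (X × Finset ℕ) =>
          ((V : L2 (X × Finset ℕ) →L[ℂ] L2 Y) ∘L (B ∘L (V.symm : L2 Y →L[ℂ] L2 (X × Finset ℕ))))) :=
        continuous_const.clm_comp (continuous_id.clm_comp continuous_const)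
      exact h2
    exact h1.comp hAc
  · intro S T hST
    have h1 : CE (A S) = CE (A T) := hST
    exact hAi ⟨∅⟩ (CE.injective h1)
  · intro T x' x F' F L hL1 hD
    have hx' : ∀ l, L ≤ l → u l x' = 1 := fun l hl => (hL1 l hl).1
    have hx : ∀ l, L ≤ l → u l x = 1 := fun l hl => (hL1 l hl).2
    have h1 : ent (((CE : Op (X × Finset ℕ) →⋆ₙₐ[ℂ] Op Y).comp A) T) (e.symm (x', F'))
        (e.symm (x, F)) = inner ℂ (Z (dl (x', F'))) (A T (Z (dl (x, F)))) := by
      unfold ent
      have h2 : (((CE : Op (X × Finset ℕ) →⋆ₙₐ[ℂ] Op Y).comp A) T) (dl (e.symm (x, F))) =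
          V (A T (V.symm (dl (e.symm (x, F))))) := rfl
      rw [h2, hVs, ← hV (x', F'), LinearIsometryEquiv.inner_map_map]
    rw [h1, Z_dl u Z hZ (x', F') L hx', Z_dl u Z hZ (x, F) L hx]
    have h3 : inner ℂ (xi u L (x', F')) (A T (xi u L (x, F))) =
        ∑ S' ∈ (Finset.range L).powerset, ∑ S ∈ (Finset.range L).powerset,
          (starRingEnd ℂ) (cf (fun l => u l x') L S') * (cf (fun l => u l x) L S *
            ent (A T) (x', F' ∆ S') (x, F ∆ S)) := by
      unfold xi
      rw [sum_inner]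
      refine Finset.sum_congr rfl fun S' _ => ?_
      rw [inner_smul_left, map_sum, inner_sum, Finset.mul_sum]
      refine Finset.sum_congr rfl fun S _ => ?_
      rw [map_smul, inner_smul_right]
      rfl
    rw [h3]
    have h4 : ∀ S' ∈ (Finset.range L).powerset, ∑ S ∈ (Finset.range L).powerset,
          (starRingEnd ℂ) (cf (fun l => u l x') L S') * (cf (fun l => u l x) L S *
            ent (A T) (x', F' ∆ S') (x, F ∆ S)) =
        ent T x' x * ((starRingEnd ℂ) (cf (fun l => u l x') L S') *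
          cf (fun l => u l x) L (S' ∆ (F' ∆ F))) := by
      intro S' hS'
      rw [Finset.mem_powerset] at hS'
      rw [Finset.sum_eq_single (S' ∆ (F' ∆ F))]
      · rw [hAe, if_pos ((symm_alg F F' _ S').mpr rfl)]
        ring
      · intro S _ hS
        rw [hAe, if_neg (fun h => hS ((symm_alg F F' S S').mp h))]
        ring
      · intro h
        exfalso
        apply h
        rw [Finset.mem_powerset]
        intro l hl
        rcases Finset.mem_symmDiff.mp hl with ⟨h1, _⟩ | ⟨h1, _⟩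
        · exact hS' h1
        · exact hD h1
    rw [Finset.sum_congr rfl h4, ← Finset.mul_sum,
      hconv (fun l => u l x') (fun l => u l x) L (F' ∆ F) hD]
    rfl

end Pool.Agent.H853R3.CT.Amp

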